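import Pool.Agent.N639.FI.Row

/-!
# All words of all lengths in the last cells of the rows of the orbit of every finite configuration

Let `x` be any nonzero finite configuration (for instance the one with a single letter `1`, whose orbit
consists of the expansions of the powers of `3/2` in base six). The nonzero cells of the row `F^n x` end
within a bounded distance of the cell `n`. Consider the cells between `n - A log M` and `n - δ log M`. For
almost all times `n` in a window `n₀ ≤ n < n₀ + M` (its position is arbitrary), all words of all lengths `l`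
stand in all windows of `T` of these cells as often as expected, namely `T / 6 ^ l` times with an error of
at most `(log M) ^ η (1 + √(T / 6 ^ l))`. The exceptional set has at most `M (log M) ^ (-K)` elements, for
every `K`. Here `A` is as large and `δ > 0` as small as we like.

Proof. The row `F^n x` is the expansion in base six of `m 9 ^ n`, shifted by `n + k` places. A sum of
boundedly many terms `h 6 ^ a`, `a ≤ X`, with coefficients `|h| ≤ M ^ κ` is zero or divisible by at most the
power `2 ^ (X + ε log M)` (`Pool/Agent/N639/FI/Val.lean`), so tests with a bounded number of words lead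
to sums of `e(A 9 ^ n / 2 ^ ι)` with `A` odd and `c log M ≤ ι ≤ C log M`, which are `O(M ^ (1 - c'))` by the
method of Korobov (`Pool/Agent/W301/TD/ExpSum.lean`, helper301). The law follows from moments of high order,
which are sums of such tests over the words of length `O(log log M)`. Authors: helper639, with parts by
helper199, helper407 and helper586.
-/

set_option autoImplicit false

namespace Pool.Agent.Results.MP_cc0c1a_nt.AllWordsInLastCells

open Finset Real
open Pool.Agent.H429R2.Auto (Conf F IsFin)

/-- the word of the `l` letters of `x` at the cells `i, …, i + l - 1`, read as a number in base six -/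
def word (x : Conf) (l : ℕ) (i : ℤ) : ℕ :=
  ∑ r ∈ range l, ((x (i + ((l - 1 - r : ℕ) : ℤ)) : Fin 6) : ℕ) * 6 ^ r

/-- every word `c` of every length `l` starts at `T / 6 ^ l` of the cells `i, …, i + T - 1`, up to
`E (1 + √(T / 6 ^ l))`, whenever the words starting at these cells lie between `a` and `b` -/
def AllWords (x : Conf) (a b E : ℝ) : Prop :=
  ∀ (l T c : ℕ) (i : ℤ), a ≤ i → (i : ℝ) + T + l ≤ b → c < 6 ^ l →
    |(((range T).filter fun t : ℕ => word x l (i + (t : ℤ)) = c).card : ℝ) - T / 6 ^ l| ≤
      E * (1 + √(T / 6 ^ l))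

open Classical in
/-- **All words of all lengths in the last cells of the rows**: let `x` be a nonzero finite configuration,
`δ, A, η > 0` and `K` a natural number. There is `M₀` such that for all `M ≥ M₀` and all
`n₀ ≥ A log M`, for all but at most `M / (log M) ^ K` of the times `n` with `n₀ ≤ n < n₀ + M` the row
`F^n x` satisfies the law `AllWords` between the cells `n - A log M` and `n - δ log M`. -/
theorem result (x : Conf) (hx : IsFin x) (hx0 : x ≠ 0) (δ A η : ℝ) (hδ : 0 < δ) (hA : 0 < A)
    (hη : 0 < η) (K : ℕ) :
    ∃ M₀ : ℕ, ∀ M : ℕ, M₀ ≤ M → ∀ n₀ : ℕ, A * log M ≤ n₀ →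
      (((Ico n₀ (n₀ + M)).filter fun n =>
        ¬ AllWords (F^[n] x) (n - A * log M) (n - δ * log M) ((log M) ^ η)).card : ℝ) ≤
        M / (log M) ^ K := by
  obtain ⟨m, k, hrep, hm, -⟩ := Pool.Agent.H429R2.Auto.exists_rep hx
  have hm := hm hx0
  have hA1 : 0 < A + 1 := by linarith
  have hT := Pool.Agent.N639.FI.tg_S6 m hδ (A + 1) (A := 2 * (A + 1)) (by positivity)
  have hT' : Pool.Agent.N639.FG.TG 6 (fun M => 2 * ((A + 1) * log M))
      (Pool.Agent.N639.FI.S6 m δ (A + 1)) := by simpa only [mul_assoc] using hT
  obtain ⟨M₀, hM₀⟩ := Filter.eventually_atTop.1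
    ((Pool.Agent.N639.FH.low1 (by norm_num) hT' (by positivity : 0 < η / 2) (K + 1)).and
      ((Pool.Agent.N639.FH.err1 hA1 hη K).and ((Pool.Agent.N639.FI.mem_S6 (k := k) (δ := δ) hm
        hA).and ((Pool.Agent.N639.FI.log_big 1).and (Pool.Agent.N639.FI.log_big 0)))))
  refine ⟨M₀, fun M hM n₀ hn₀ => ?_⟩
  obtain ⟨h1, ⟨h2, h3⟩, h4, h5, h6⟩ := hM₀ M hM
  have hlM : (0 : ℝ) < log M := by linarith
  -- the places
  set lo : ℕ := ⌈δ * log M⌉₊ with hlo
  set hi : ℕ := ⌊A * log M⌋₊ + k + 1 with hhi
  have hlo1 : δ * log M ≤ lo := Nat.le_ceil _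
  have hlo2 : (lo : ℝ) < δ * log M + 1 := Nat.ceil_lt_add_one (by positivity)
  have hhi1 : (hi : ℝ) ≤ A * log M + k + 1 := by
    rw [hhi]
    push_cast
    have := Nat.floor_le (by positivity : 0 ≤ A * log M)
    linarith
  have hhi2 : A * log M + k < hi := by
    rw [hhi]
    push_cast
    have := Nat.lt_floor_add_one (A * log M)
    linarith
  have hrhs : (0 : ℝ) ≤ M / (log M) ^ K := by positivity
  by_cases hlh : lo ≤ hi
  · obtain ⟨g1, g2⟩ := h4 n₀ lo hi hn₀ hlo1 hhi1 hlh
    have key := h1 ℕ (range M) (fun n' => m * 9 ^ n₀ * 9 ^ n') lo hi g1 g2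
    rw [card_range] at key
    refine le_trans ?_ (key.trans ?_)
    · rw [Pool.Agent.N639.FI.ico_card]
      refine Nat.cast_le.2 (card_le_card ?_)
      intro n' hn'
      rw [mem_filter] at hn' ⊢
      refine ⟨hn'.1, fun hcon => hn'.2 fun l T c i k1 k2 k3 => ?_⟩
      push_cast at k1 k2
      rcases Nat.eq_zero_or_pos T with hT0 | hT0
      · subst hT0
        simp only [range_zero, filter_empty, card_empty, Nat.cast_zero, zero_div, sub_zero, abs_zero,
          Real.sqrt_zero, add_zero, mul_one]
        positivity
      · have hcell : i + T + l ≤ ((n₀ + n' : ℕ) : ℤ) + 1 + k := by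
          have : (i : ℝ) + T + l ≤ ((((n₀ + n' : ℕ) : ℤ) + 1 + k : ℤ) : ℝ) := by
            push_cast
            have h7 : 0 ≤ δ * log M := by positivity
            have h8 : (0 : ℝ) ≤ k := Nat.cast_nonneg k
            linarith
          exact_mod_cast this
        obtain ⟨t, ht, hlt⟩ := Pool.Agent.N639.FI.window_places hT0 hcell
        have htR : (i : ℝ) + (t + T - 1) = n₀ + n' + k := by
          have h7 : ((t + T - 1 : ℕ) : ℝ) = t + T - 1 := by
            rw [Nat.cast_sub (by omega)]
            push_cast
            ring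
          have h8 : (i : ℝ) + ((t + T - 1 : ℕ) : ℝ) = n₀ + n' + k := by exact_mod_cast ht
          rw [h7] at h8
          exact h8
        have hw1 : lo + l ≤ t + 1 := by
          have h7 : ((lo + l : ℕ) : ℝ) < ((t + 2 : ℕ) : ℝ) := by
            push_cast
            have h8 : (0 : ℝ) ≤ k := Nat.cast_nonneg k
            linarith
          have h8 : lo + l < t + 2 := by exact_mod_cast h7
          omega
        have hw2 : t + T ≤ hi := by
          have h7 : ((t + T : ℕ) : ℝ) < ((hi + 1 : ℕ) : ℝ) := by
            push_cast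
            linarith
          have h8 : t + T < hi + 1 := by exact_mod_cast h7
          omega
        have k4 := hcon l t T c hw1 hw2 k3
        have e1 : (((Ico t (t + T)).filter fun p =>
            Pool.Agent.N639.FH.wo 6 l p (m * 9 ^ n₀ * 9 ^ n') = c).card) =
            ((range T).filter fun t' : ℕ => word (F^[n₀ + n'] x) l (i + (t' : ℤ)) = c).card := by
          rw [Pool.Agent.N639.FH.refl_card (t + T) t T le_rfl]
          have h7 : t + T - t - T = 0 := by omega
          rw [h7, Nat.zero_add, ← range_eq_Ico]
          congr 1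
          refine filter_congr fun t' ht' => ?_
          rw [mem_range] at ht'
          have h8 := Pool.Agent.N639.FI.rw6_eq hrep (n₀ + n') l (i + (t' : ℤ)) (t + T - 1 - t')
            (by omega) (by omega)
          have h9 : word (F^[n₀ + n'] x) l (i + (t' : ℤ)) =
              Pool.Agent.N639.FI.rw6 (F^[n₀ + n'] x) l (i + (t' : ℤ)) := rfl
          rw [h9, h8, pow_add, mul_assoc]
        have e6 : ((6 : ℕ) : ℝ) = 6 := by norm_num
        rw [e1, e6] at k4
        refine k4.trans ?_
        gcongr
    · rw [div_eq_inv_mul]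
      gcongr
  · refine le_trans (le_of_eq ?_) hrhs
    rw [Nat.cast_eq_zero, card_eq_zero, filter_eq_empty_iff]
    intro n _ hn
    apply hn
    intro l T c i k1 k2 _
    exfalso
    push Not at hlh
    have h7 : (hi : ℝ) < lo := by exact_mod_cast hlh
    have h8 : (0 : ℝ) ≤ k := Nat.cast_nonneg k
    have h9 : (0 : ℝ) ≤ T := Nat.cast_nonneg T
    have h10 : (0 : ℝ) ≤ l := Nat.cast_nonneg l
    have h11 : A * log M < lo - 1 := by
      have : (hi : ℝ) + 1 ≤ lo := by exact_mod_cast hlh
      linarith
    linarith

end Pool.Agent.Results.MP_cc0c1a_nt.AllWordsInLastCells
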