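import Pool.Agent.N639.FI.Row

/-!
# The complexity of the last cells of the rows of the orbit of every finite configuration

Let `x` be any nonzero finite configuration (for instance the one with a single letter `1`, whose orbit
consists of the expansions of the powers of `3/2` in base six). The nonzero cells of the row `F^n x` end
within a bounded distance of the cell `n`. Consider a window of `T ≥ T₀` cells between `n - A log M` and
`n - δ log M`. For almost all times `n` in `n₀ ≤ n < n₀ + M` (`n₀` is arbitrary) the number of different words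
of `l` letters of the row `F^n x` which start in the window is `6 ^ l (1 - e ^ (-T / 6 ^ l))`, up to the
factor `1 ± ε`, for ALL lengths `l` at the same time: it is nearly `6 ^ l` (all words) if `6 ^ l` is much smaller
than `T`, and nearly `T` (no repetitions) if `6 ^ l` is much larger than `T`, as for random letters.

Proof. The row `F^n x` is the expansion in base six of `m 9 ^ n`, shifted by `n + k` places. A sum of
boundedly many terms `h 6 ^ a`, `a ≤ X`, with coefficients `|h| ≤ M ^ κ` is zero or divisible by at most the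
power `2 ^ (X + ε log M)` (`Pool/Agent/N639/FI/Val.lean`), so tests with a bounded number of words lead
to sums of `e(A 9 ^ n / 2 ^ ι)` with `A` odd and `c log M ≤ ι ≤ C log M`, which are `O(M ^ (1 - c'))` by the
method of Korobov (`Pool/Agent/W301/TD/ExpSum.lean`, helper301). The first two moments of the number of words
which do not occur are compared with those of random letters by means of such tests over the words of length
`O(log log M)`. Authors: helper639, with parts by helper199, helper407 and helper586.
-/

set_option autoImplicit false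

namespace Pool.Agent.Results.MP_cc0c1a_nt.ComplexityOfLastCells

open Finset Real
open Pool.Agent.H429R2.Auto (Conf F IsFin)

/-- the word of the `l` letters of `x` at the cells `i, …, i + l - 1`, read as a number in base six -/
def word (x : Conf) (l : ℕ) (i : ℤ) : ℕ :=
  ∑ r ∈ range l, ((x (i + ((l - 1 - r : ℕ) : ℤ)) : Fin 6) : ℕ) * 6 ^ r

/-- the number of different words of `l` letters of `x` which start in the cells `i, …, i + T - 1` -/
def complexity (x : Conf) (l T : ℕ) (i : ℤ) : ℕ :=
  ((range T).image fun t : ℕ => word x l (i + (t : ℤ))).card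

open Classical in
/-- **The complexity of the last cells**: let `x` be a nonzero finite configuration and `δ, A, ε > 0`. There
are `T₀` and `M₀` such that for all `M ≥ M₀`, all `n₀ ≥ A log M`, all distances `j ≤ A log M` and all
`T ≥ T₀`, for all but at most `ε M` of the times `n` with `n₀ ≤ n < n₀ + M`: for all lengths `l` with
`δ log M + l + T ≤ j` the number of different words of `l` letters of the row `F^n x` which start in the
cells `n - j, …, n - j + T - 1` is `6 ^ l (1 - e ^ (-T / 6 ^ l))`, up to the factor `1 ± ε`. -/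
theorem result (x : Conf) (hx : IsFin x) (hx0 : x ≠ 0) (δ A ε : ℝ) (hδ : 0 < δ) (hA : 0 < A)
    (hε : 0 < ε) :
    ∃ T₀ M₀ : ℕ, ∀ M : ℕ, M₀ ≤ M → ∀ n₀ : ℕ, A * log M ≤ n₀ →
      ∀ j T : ℕ, (j : ℝ) ≤ A * log M → T₀ ≤ T →
      (((Ico n₀ (n₀ + M)).filter fun n => ¬ ∀ l : ℕ, δ * log M + l + T ≤ j →
        |(complexity (F^[n] x) l T ((n : ℤ) - j) : ℝ) - 6 ^ l * (1 - exp (-(T / 6 ^ l)))| ≤
          ε * (6 ^ l * (1 - exp (-(T / 6 ^ l))))).card : ℝ) ≤ ε * M := by
  obtain ⟨m, k', hrep, hm, -⟩ := Pool.Agent.H429R2.Auto.exists_rep hx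
  have hm := hm hx0
  have hT := Pool.Agent.N639.FI.tg_S6 m hδ (A + 1) (A := A + 1) (by positivity)
  obtain ⟨T₀, h0⟩ := Pool.Agent.N639.FH.low4 (by norm_num) hT hε
  obtain ⟨M₀, hM₀⟩ := Filter.eventually_atTop.1
    (h0.and ((Pool.Agent.N639.FI.mem_S6 (k := k') (δ := δ) hm hA).and
      (Pool.Agent.N639.FI.log_big 1)))
  refine ⟨T₀, M₀, fun M hM n₀ hn₀ j T hj2 hTT => ?_⟩
  obtain ⟨h1, h4, h5⟩ := hM₀ M hM
  have hlM : (0 : ℝ) < log M := by linarith
  have hδM : 0 < δ * log M := by positivity
  have hk' : (0 : ℝ) ≤ k' := Nat.cast_nonneg k'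
  by_cases hj1 : δ * log M + T ≤ j
  · have hjT : T < j := by
      have : (T : ℝ) < j := by linarith
      exact_mod_cast this
    -- the places
    set lo : ℕ := ⌈δ * log M⌉₊ with hlo
    have hlo1 : δ * log M ≤ lo := Nat.le_ceil _
    have hlo2 : (lo : ℝ) < δ * log M + 1 := Nat.ceil_lt_add_one (by positivity)
    have hlo3 : ∀ l : ℕ, δ * log M + l + T ≤ j → lo + l + T ≤ j := by
      intro l hl
      have h7 : ((lo + l + T : ℕ) : ℝ) < ((j + 1 : ℕ) : ℝ) := by
        push_cast
        linarith
      have h8 : lo + l + T < j + 1 := by exact_mod_cast h7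
      omega
    have hlo4 := hlo3 0 (by push_cast; linarith)
    set t : ℕ := k' + j + 1 - T with ht
    have htT : t + T = k' + j + 1 := by omega
    have hhi : (((t + T : ℕ) : ℕ) : ℝ) ≤ A * log M + k' + 1 := by
      rw [htT]
      push_cast
      linarith
    obtain ⟨e1, e2⟩ := h4 n₀ lo (t + T) hn₀ hlo1 hhi (by omega)
    have key := h1 ℕ (range M) (fun n' => m * 9 ^ n₀ * 9 ^ n') lo t T hTT (by
        have : (T : ℝ) ≤ ((t + T : ℕ) : ℝ) := by exact_mod_cast (by omega : T ≤ t + T)
        linarith) e2
    rw [card_range] at key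
    refine le_trans ?_ key
    rw [Pool.Agent.N639.FI.ico_card]
    refine Nat.cast_le.2 (card_le_card ?_)
    intro n' hn'
    rw [mem_filter] at hn' ⊢
    refine ⟨hn'.1, fun hcon => hn'.2 fun l hl => ?_⟩
    have hl' := hlo3 l hl
    have k4 := hcon l (by omega)
    have e6 : ((6 : ℕ) : ℝ) = 6 := by norm_num
    rw [e6] at k4
    have h9 : complexity (F^[n₀ + n'] x) l T (((n₀ + n' : ℕ) : ℤ) - j) =
        ((Ico t (t + T)).image fun i =>
          Pool.Agent.N639.FH.wo 6 l i (m * 9 ^ n₀ * 9 ^ n')).card := by
      unfold complexity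
      congr 1
      rw [Pool.Agent.N639.FH.refl_image (t + T) t T le_rfl, image_image]
      have h7 : t + T - t - T = 0 := by omega
      rw [h7, Nat.zero_add, ← range_eq_Ico]
      refine image_congr fun t' ht' => ?_
      rw [coe_range, Set.mem_Iio] at ht'
      simp only [Function.comp_apply]
      have h8 := Pool.Agent.N639.FI.rw6_eq hrep (n₀ + n') l
        (((n₀ + n' : ℕ) : ℤ) - j + (t' : ℤ)) (t + T - 1 - t') (by push_cast; omega) (by omega)
      have h9 : word (F^[n₀ + n'] x) l (((n₀ + n' : ℕ) : ℤ) - j + (t' : ℤ)) =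
          Pool.Agent.N639.FI.rw6 (F^[n₀ + n'] x) l (((n₀ + n' : ℕ) : ℤ) - j + (t' : ℤ)) := rfl
      rw [h9, h8, pow_add, mul_assoc]
    rw [h9]
    exact k4
  · refine le_trans (le_of_eq ?_) (by positivity : (0 : ℝ) ≤ ε * M)
    rw [Nat.cast_eq_zero, card_eq_zero, filter_eq_empty_iff]
    intro n _ hn
    apply hn
    intro l hl
    exfalso
    apply hj1
    have : (0 : ℝ) ≤ l := Nat.cast_nonneg l
    linarith

end Pool.Agent.Results.MP_cc0c1a_nt.ComplexityOfLastCells
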