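import Mathlib
import Pool.Agent.N639.FJ.Main

/-!
# Most configurations: space-time patterns of all sizes up to `C log N` along all lines

Take any configuration `y` and rewrite the cells `s, …, s + N - 1`. For all but a proportion
`exp(-N ^ c)` of the `6 ^ N` ways to do it, every pattern of at most `C log N` times and at most
`C log N` cells occurs along every row, every column and every other line with a direction vector of
size at most `D` inside the reduced light cone of the window, up to time `A N`, with its frequency: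
`T f` times among `T` cells, up to an error of `N ^ η (1 + √(T f))`. Lines of all lengths `T` are allowed.
-/

set_option autoImplicit false

open MeasureTheory

namespace Pool.Agent.Results.MP_cc0c1a_nt.PatternsOfAllSizes

open Pool.Agent.H429R2.Auto (F)

/-- the configuration `y` with the cells `s, …, s + N - 1` replaced by `v 0, …, v (N - 1)` -/
def rewrite (y : ℤ → Fin 6) (s : ℤ) {N : ℕ} (v : Fin N → Fin 6) : ℤ → Fin 6 := fun i =>
  if h : s ≤ i ∧ i < s + N then v ⟨(i - s).toNat, by omega⟩ else y i

/-- the pattern `w` of `h` times and `l` cells stands at the cell `(n, i)` of the space-time diagram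
of `x` -/
def Stands {h l : ℕ} (w : Fin h → Fin l → Fin 6) (n : ℕ) (i : ℤ) (x : ℤ → Fin 6) : Prop :=
  ∀ (a : Fin h) (b : Fin l), F^[n + a] x (i + b) = w a b

/-- the uniform Bernoulli measure on the configurations: the cells are independent and uniformly
distributed on `{0, …, 5}` -/
noncomputable def bernoulli : Measure (ℤ → Fin 6) :=
  Measure.infinitePi fun _ : ℤ => (PMF.uniformOfFintype (Fin 6)).toMeasure

/-- the frequency of a pattern: the probability that it stands at the cell `(0, 0)` -/
noncomputable def freq {h l : ℕ} (w : Fin h → Fin l → Fin 6) : ℝ := bernoulli.real {x | Stands w 0 0 x}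

/-- the cell `(n, i)` lies in the light cone of the window `{s, …, s + N - 1}`, reduced by `δ N`, and
`n ≤ A N` -/
def InCone (A : ℕ) (δ : ℝ) (N : ℕ) (s : ℤ) (n : ℕ) (i : ℤ) : Prop :=
  n ≤ A * N ∧ (s : ℝ) - n * (Real.log (3 / 2) / Real.log 6) + δ * N ≤ i ∧
    (i : ℝ) ≤ s + N + n - δ * N

/-- the frequency of a word of `l` letters in a row is `6 ^ (-l)` -/
lemma freq_row {l : ℕ} (w : Fin 1 → Fin l → Fin 6) : freq w = 1 / 6 ^ l := by
  classical
  have h1 : {x : ℤ → Fin 6 | Stands w 0 0 x} =
      Set.pi ((Finset.Ico (0 : ℤ) l : Finset ℤ) : Set ℤ)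
        (fun i => {if h : i.toNat < l then w 0 ⟨i.toNat, h⟩ else 0}) := by
    ext x
    rw [Set.mem_pi]
    simp only [Set.mem_ofPred_eq, Finset.coe_Ico, Set.mem_Ico, Set.mem_singleton_iff, Stands]
    constructor
    · intro h i hi
      obtain ⟨j, rfl⟩ := Int.eq_ofNat_of_zero_le hi.1
      have hj : j < l := by omega
      have h2 := h 0 ⟨j, hj⟩
      simp only [Fin.val_zero, add_zero, Function.iterate_zero, id_eq, zero_add] at h2
      rw [Int.toNat_natCast, dif_pos hj]
      exact h2
    · intro h a b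
      have h2 := h (b : ℕ) ⟨by omega, by exact_mod_cast b.2⟩
      rw [Int.toNat_natCast, dif_pos b.2] at h2
      have ha : a = 0 := Subsingleton.elim _ _
      subst ha
      simp only [Fin.val_zero, add_zero, Function.iterate_zero, id_eq, zero_add]
      exact h2
  unfold freq
  rw [h1]
  unfold Measure.real bernoulli
  rw [Measure.infinitePi_pi]
  · have h2 : ∀ a : Fin 6, (PMF.uniformOfFintype (Fin 6)).toMeasure {a} = (1 : ENNReal) / 6 := by
      intro a
      rw [PMF.toMeasure_apply_singleton _ _ (measurableSet_singleton a)]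
      simp
    simp only [h2, Finset.prod_const, Int.card_Ico]
    rw [show ((l : ℤ) - 0).toNat = l by omega, ENNReal.toReal_pow, ENNReal.toReal_div]
    simp
  · intro i _
    exact measurableSet_singleton _

/-- For all `A`, `D`, `C` and `δ, η > 0` there are `c > 0` and `N₀` such that for all `N ≥ N₀`, all
configurations `y` and all `s`, for all but at most `exp(-N ^ c) 6 ^ N` of the words `v` of length `N`
the following holds for `x = rewrite y s v`. Let `w` be a pattern of `h ≤ C log N` times and
`l ≤ C log N` cells, `(a, b) ≠ (0, 0)` a direction with `0 ≤ a ≤ D` and `|b| ≤ D`, and let the cells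
`(n + t a, i + t b)`, `0 ≤ t < T`, lie in the reduced light cone. Then the number of the `t < T` for
which `w` stands at the cell `(n + t a, i + t b)` differs from `T freq w` by at most
`N ^ η (1 + √(T freq w))`. -/
theorem result (A D : ℕ) (δ C η : ℝ) (hδ : 0 < δ) (hη : 0 < η) : ∃ c : ℝ, 0 < c ∧ ∃ N₀ : ℕ,
    ∀ N : ℕ, N₀ ≤ N → ∀ (y : ℤ → Fin 6) (s : ℤ),
    ({v : Fin N → Fin 6 | ¬ ∀ (h l : ℕ) (w : Fin h → Fin l → Fin 6), (h : ℝ) ≤ C * Real.log N →
      (l : ℝ) ≤ C * Real.log N → ∀ (a : ℕ) (b : ℤ), a ≤ D → |b| ≤ D →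
      (a ≠ 0 ∨ b ≠ 0) → ∀ (n : ℕ) (i : ℤ) (T : ℕ),
      (∀ t < T, InCone A δ N s (n + t * a) (i + t * b)) →
      |({t : ℕ | t < T ∧ Stands w (n + t * a) (i + t * b) (rewrite y s v)}.ncard : ℝ) - T * freq w| ≤
        (N : ℝ) ^ η * (1 + √(T * freq w))}.ncard : ℝ) ≤
      Real.exp (-(N : ℝ) ^ c) * 6 ^ N := by
  classical
  obtain ⟨N₀, h⟩ := Pool.Agent.N639.FJ.main A D δ (max C 0) (min η 1) hδ (le_max_right _ _)
    (lt_min hη one_pos) (min_le_right _ _)
  refine ⟨min η 1 / 4, by have := lt_min hη one_pos; positivity, max N₀ 1, fun N hN y s => ?_⟩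
  obtain ⟨Bad, hBad, hgood⟩ := h N ((le_max_left _ _).trans hN) y s
  have hN1 : (1 : ℝ) ≤ N := by exact_mod_cast (le_max_right _ _).trans hN
  refine le_trans (Nat.cast_le.2 ?_) hBad
  rw [← Set.ncard_coe_finset]
  refine Set.ncard_le_ncard ?_ (Finset.finite_toSet _)
  intro v hv
  by_contra hvB
  apply hv
  intro h l w hh hl a b ha hb hab n i T hcone
  have hlog : 0 ≤ Real.log N := Real.log_nonneg hN1
  have hCl : C * Real.log N ≤ max C 0 * Real.log N :=
    mul_le_mul_of_nonneg_right (le_max_left _ _) hlog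
  have h1 := hgood v hvB h l w (hh.trans hCl) (hl.trans hCl) a b ha hb hab n i T hcone
  have h2 : {t : ℕ | t < T ∧ Stands w (n + t * a) (i + t * b) (rewrite y s v)}.ncard =
      Pool.Agent.N639.FJ.cntR w n i a b T (Pool.Agent.Y933.KH.put y s v) := by
    unfold Pool.Agent.N639.FJ.cntR
    rw [← Set.ncard_coe_finset]
    congr 1
    ext t
    simp only [Set.mem_ofPred_eq, Finset.coe_filter, Finset.mem_range]
    rfl
  rw [h2]
  refine le_trans h1 ?_
  have h3 : (N : ℝ) ^ min η 1 ≤ (N : ℝ) ^ η :=
    Real.rpow_le_rpow_of_exponent_le hN1 (min_le_left _ _)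
  have h4 : 0 ≤ 1 + √(T * freq w) := by positivity
  exact mul_le_mul_of_nonneg_right h3 h4

end Pool.Agent.Results.MP_cc0c1a_nt.PatternsOfAllSizes
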