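import Pool.Agent.N639.FI.Row

/-!
# The Poisson law in the last cells of the rows of the orbit of every finite configuration

Let `x` be any nonzero finite configuration (for instance the one with a single letter `1`, whose orbit
consists of the expansions of the powers of `3/2` in base six). The nonzero cells of the row `F^n x` end
within a bounded distance of the cell `n`. Consider a window of `T` cells between `n - A log M` and
`n - δ log M` and a set `W` of `r` words of length `l` such that two of them never overlap in at least half of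
their length, where `T → ∞` and `T / 6 ^ l` is bounded from above and below. For a random time `n` in
`n₀ ≤ n < n₀ + M` (`n₀` is arbitrary) the number of the cells of the window at which a word of `W` starts has
asymptotically the Poisson distribution with the mean `r T / 6 ^ l`, uniformly in `W`, the window and `n₀`.
Here `A` is as large and `δ > 0` as small as we like. For `k = 0` this is the exponential law for the distance
to the next occurrence of a word.

Proof. The row `F^n x` is the expansion in base six of `m 9 ^ n`, shifted by `n + k` places. A sum of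
boundedly many terms `h 6 ^ a`, `a ≤ X`, with coefficients `|h| ≤ M ^ κ` is zero or divisible by at most the
power `2 ^ (X + ε log M)` (`Pool/Agent/N639/FI/Val.lean`), so tests with a bounded number of words lead
to sums of `e(A 9 ^ n / 2 ^ ι)` with `A` odd and `c log M ≤ ι ≤ C log M`, which are `O(M ^ (1 - c'))` by the
method of Korobov (`Pool/Agent/W301/TD/ExpSum.lean`, helper301). The binomial moments of the number of
occurrences are sums of such tests over the words of length `O(log log M)`. Authors: helper639, with parts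
by helper199, helper711, helper79 and helper586.
-/

set_option autoImplicit false

namespace Pool.Agent.Results.MP_cc0c1a_nt.PoissonLawInLastCells

open Finset Real
open Pool.Agent.H429R2.Auto (Conf F IsFin)

/-- the word of the `l` letters of `x` at the cells `i, …, i + l - 1`, read as a number in base six -/
def word (x : Conf) (l : ℕ) (i : ℤ) : ℕ :=
  ∑ r ∈ range l, ((x (i + ((l - 1 - r : ℕ) : ℤ)) : Fin 6) : ℕ) * 6 ^ r

/-- the number of the cells `i, …, i + T - 1` at which a word of the set `W` of words of length `l`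
starts -/
def number (x : Conf) (l T : ℕ) (i : ℤ) (W : Finset ℕ) : ℕ :=
  ((range T).filter fun t : ℕ => word x l (i + (t : ℤ)) ∈ W).card

/-- the last `l - e` letters of a word of `W` are never the first `l - e` letters of a word of `W`, for
`1 ≤ e ≤ l / 2` -/
def NoLargeOverlap (l : ℕ) (W : Finset ℕ) : Prop :=
  ∀ c ∈ W, ∀ c' ∈ W, ∀ e : ℕ, 1 ≤ e → 2 * e ≤ l → c % 6 ^ (l - e) ≠ c' / 6 ^ e

open Classical in
/-- **The Poisson law in the last cells of the rows**: let `x` be a nonzero finite configuration,
`δ, A, Λ, ε > 0` and `r, k` natural numbers. There are `T₀` and `M₀` such that for all `M ≥ M₀`, all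
`n₀ ≥ A log M`, all distances `j`, lengths `l` and `T ≥ T₀` with `δ log M + l + T ≤ j ≤ A log M`,
`T ≤ Λ 6 ^ l` and `6 ^ l ≤ Λ T`, and all sets `W` of `r` words of length `l` without large overlaps: the
proportion of the times `n` with `n₀ ≤ n < n₀ + M` for which exactly `k` of the cells `n - j, …, n - j + T - 1`
of the row `F^n x` start a word of `W` differs from `e ^ (-v) v ^ k / k!`, `v = r T / 6 ^ l`, by at
most `ε`. -/
theorem result (x : Conf) (hx : IsFin x) (hx0 : x ≠ 0) (δ A Λ ε : ℝ) (hδ : 0 < δ) (hA : 0 < A)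
    (hΛ : 0 < Λ) (hε : 0 < ε) (r k : ℕ) :
    ∃ T₀ M₀ : ℕ, ∀ M : ℕ, M₀ ≤ M → ∀ n₀ : ℕ, A * log M ≤ n₀ →
      ∀ (j l T : ℕ) (W : Finset ℕ), T₀ ≤ T → δ * log M + l + T ≤ j → (j : ℝ) ≤ A * log M →
      (T : ℝ) ≤ Λ * 6 ^ l → (6 : ℝ) ^ l ≤ Λ * T → W ⊆ range (6 ^ l) → W.card = r →
      NoLargeOverlap l W →
      |(((Ico n₀ (n₀ + M)).filter fun n => number (F^[n] x) l T ((n : ℤ) - j) W = k).card : ℝ) / M -
        exp (-(r * (T / 6 ^ l))) * (r * (T / 6 ^ l)) ^ k / k.factorial| ≤ ε := by
  obtain ⟨m, k', hrep, hm, -⟩ := Pool.Agent.H429R2.Auto.exists_rep hx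
  have hm := hm hx0
  have hT := Pool.Agent.N639.FI.tg_S6 m hδ (A + 1) (A := A + 1) (by positivity)
  obtain ⟨T₀, h0⟩ := Pool.Agent.N639.FH.low3 (by norm_num) hT r k Λ hΛ hε
  obtain ⟨M₀, hM₀⟩ := Filter.eventually_atTop.1
    (h0.and ((Pool.Agent.N639.FI.mem_S6 (k := k') (δ := δ) hm hA).and
      (Pool.Agent.N639.FI.log_big 1)))
  refine ⟨T₀, M₀, fun M hM n₀ hn₀ j l T W hTT hj1 hj2 g1 g2 g3 g4 g5 => ?_⟩
  obtain ⟨h1, h4, h5⟩ := hM₀ M hM
  have hlM : (0 : ℝ) < log M := by linarith
  have hδM : 0 < δ * log M := by positivity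
  have hjT : l + T < j := by
    have : ((l + T : ℕ) : ℝ) < j := by push_cast; linarith
    exact_mod_cast this
  have hk' : (0 : ℝ) ≤ k' := Nat.cast_nonneg k'
  -- the places
  set lo : ℕ := ⌈δ * log M⌉₊ with hlo
  have hlo1 : δ * log M ≤ lo := Nat.le_ceil _
  have hlo2 : (lo : ℝ) < δ * log M + 1 := Nat.ceil_lt_add_one (by positivity)
  have hlo3 : lo + l + T ≤ j := by
    have h7 : ((lo + l + T : ℕ) : ℝ) < ((j + 1 : ℕ) : ℝ) := by
      push_cast
      linarith
    have h8 : lo + l + T < j + 1 := by exact_mod_cast h7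
    omega
  set t : ℕ := k' + j + 1 - T with ht
  have htT : t + T = k' + j + 1 := by omega
  have hhi : (((t + T : ℕ) : ℕ) : ℝ) ≤ A * log M + k' + 1 := by
    rw [htT]
    push_cast
    linarith
  obtain ⟨e1, e2⟩ := h4 n₀ lo (t + T) hn₀ hlo1 hhi (by omega)
  have key := h1 ℕ (range M) (fun n' => m * 9 ^ n₀ * 9 ^ n') lo t l T W hTT (by
      have : (T : ℝ) ≤ ((t + T : ℕ) : ℝ) := by exact_mod_cast (by omega : T ≤ t + T)
      linarith) (by omega) e2 (by push_cast; exact g1) (by push_cast; exact g2) g3 g4 g5
  rw [card_range] at key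
  have e6 : ((6 : ℕ) : ℝ) = 6 := by norm_num
  rw [e6] at key
  have e3 : (((Ico n₀ (n₀ + M)).filter fun n => number (F^[n] x) l T ((n : ℤ) - j) W = k).card) =
      ((range M).filter fun n' => ((Ico t (t + T)).filter fun i =>
        Pool.Agent.N639.FH.wo 6 l i (m * 9 ^ n₀ * 9 ^ n') ∈ W).card = k).card := by
    rw [Pool.Agent.N639.FI.ico_card]
    congr 1
    refine filter_congr fun n' _ => ?_
    have h9 : number (F^[n₀ + n'] x) l T (((n₀ + n' : ℕ) : ℤ) - j) W =
        ((Ico t (t + T)).filter fun i =>
          Pool.Agent.N639.FH.wo 6 l i (m * 9 ^ n₀ * 9 ^ n') ∈ W).card := by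
      unfold number
      rw [Pool.Agent.N639.FH.refl_card (t + T) t T le_rfl]
      have h7 : t + T - t - T = 0 := by omega
      rw [h7, Nat.zero_add, ← range_eq_Ico]
      congr 1
      refine filter_congr fun t' ht' => ?_
      rw [mem_range] at ht'
      have h8 := Pool.Agent.N639.FI.rw6_eq hrep (n₀ + n') l
        (((n₀ + n' : ℕ) : ℤ) - j + (t' : ℤ)) (t + T - 1 - t') (by push_cast; omega) (by omega)
      have h9 : word (F^[n₀ + n'] x) l (((n₀ + n' : ℕ) : ℤ) - j + (t' : ℤ)) =
          Pool.Agent.N639.FI.rw6 (F^[n₀ + n'] x) l (((n₀ + n' : ℕ) : ℤ) - j + (t' : ℤ)) := rfl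
      rw [h9, h8, pow_add, mul_assoc]
    rw [h9]
  rw [e3]
  exact key

end Pool.Agent.Results.MP_cc0c1a_nt.PoissonLawInLastCells
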